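import Pool.Agent.helper48.PR.SpecC

/-!
# Project pr (MP_a2a22c_al), module C4a: powers of elementary matrices are unipotent
-/

set_option autoImplicit false

namespace Pool.Agent.PR

open Matrix

theorem C4a (hC1 : C1_stmt) : C4a_stmt := by
  intro n hn F _ _ r i j h
  obtain ⟨l, hl⟩ : ∃ l : Fin n, l ∉ ({i, j} : Finset (Fin n)) := by
    by_contra hne
    push Not at hne
    have h1 : (Finset.univ : Finset (Fin n)) ⊆ {i, j} := fun l _ => hne l
    have h2 := Finset.card_le_card h1
    rw [Finset.card_univ, Fintype.card_fin] at h2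
    have h3 := Finset.card_le_two (a := i) (b := j)
    omega
  rw [Finset.mem_insert, Finset.mem_singleton, not_or] at hl
  obtain ⟨hli, hlj⟩ := hl
  have hil : i ≠ l := fun h => hli h.symm
  have hone : ∀ (a b : Fin n) (hab : a ≠ b), r (el a b hab 1) * r (el a b hab (-1)) = 1 := by
    intro a b hab
    rw [← map_mul, el_add, add_neg_cancel, el_zero, map_one]
  have hcom : el i j h 1 = el i l hil 1 * el l j hlj 1 * el i l hil (-1) * el l j hlj (-1) := by
    rw [el_commutator hil hlj h, el_neg, el_neg, mul_one]
    group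
  have hz := hC1 n F (r (el i l hil 1)) (r (el l j hlj 1)) (r (el i j h 1))
    (r (el i l hil (-1))) (r (el l j hlj (-1))) (hone i l hil) (hone l j hlj)
    (by rw [← map_mul, ← map_mul, ← map_mul, ← hcom])
    (by rw [← map_mul, ← map_mul, el_comm h hil h.symm hil])
    (by rw [← map_mul, ← map_mul, el_comm h hlj (fun h => hlj h.symm) h])
  rw [← map_pow, el_pow, mul_one] at hz
  exact hz

end Pool.Agent.PR
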