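import Pool.Agent.helper48.PR.SpecH

/-!
# Project pr (MP_a2a22c_al), module HN: Heisenberg groups in nilpotent groups
-/

set_option autoImplicit false

namespace Pool.Agent.PR

open Matrix
open scoped commutatorElement

theorem HN_abelian {P : Type} [Group P] (hcomm : ∀ a b : P, a * b = b * a) (k : ℕ) (hk : 1 ≤ k) :
    (⊤ : Subgroup P).lowerCentralSeries k = ⊥ := by
  have h1 : (⊤ : Subgroup P).lowerCentralSeries 1 = ⊥ := by
    rw [Subgroup.top_lowerCentralSeries_one, commutator_def, Subgroup.commutator_eq_bot_iff_le_centralizer]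
    intro a _
    rw [Subgroup.mem_centralizer_iff]
    intro b _
    exact hcomm b a
  exact le_bot_iff.1 ((Subgroup.lowerCentralSeries_antitone (⊤ : Subgroup P) hk).trans h1.le)

theorem HN : HN_stmt := by
  intro n hn P _ hP
  obtain ⟨hnil, htf, hcl⟩ := hP
  have hnab : ¬ ∀ a b : P, a * b = b * a := by
    intro hcomm
    rcases hcl with h | ⟨-, h⟩
    · exact h (HN_abelian hcomm _ (by omega))
    · exact h (HN_abelian hcomm _ le_rfl)
  obtain ⟨x, hx2, hx1⟩ : ∃ x : P, x ∈ Subgroup.upperCentralSeries P 2 ∧ x ∉ Subgroup.center P := by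
    by_contra hne
    push Not at hne
    have hall : ∀ k : ℕ, Subgroup.upperCentralSeries P (k + 1) ≤ Subgroup.center P := by
      intro k
      induction k with
      | zero => rw [zero_add, Subgroup.upperCentralSeries_one]
      | succ k ih =>
        intro a ha
        rw [Subgroup.mem_upperCentralSeries_succ_iff] at ha
        refine hne a ?_
        rw [Subgroup.mem_upperCentralSeries_succ_iff]
        intro y
        rw [Subgroup.upperCentralSeries_one]
        exact ih (ha y)
    obtain ⟨c, hc⟩ := hnil.nilpotent'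
    have htop : (⊤ : Subgroup P) ≤ Subgroup.center P := by
      rw [← hc]
      exact (Subgroup.upperCentralSeries_mono P (Nat.le_succ c)).trans (hall c)
    exact hnab fun a b => ((Subgroup.mem_center_iff.1 (htop (Subgroup.mem_top a))) b).symm
  rw [Subgroup.mem_center_iff] at hx1
  push Not at hx1
  obtain ⟨y, hy⟩ := hx1
  have hz : ⁅x, y⁆ ∈ Subgroup.center P := by
    rw [← Subgroup.upperCentralSeries_one]
    exact (Subgroup.mem_upperCentralSeries_succ_iff.1 hx2) y
  have hz' : ∀ g : P, g * ⁅x, y⁆ = ⁅x, y⁆ * g := Subgroup.mem_center_iff.1 hz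
  have hne : ⁅x, y⁆ ≠ 1 := by
    intro h
    rw [commutatorElement_eq_one_iff_mul_comm] at h
    exact hy h.symm
  refine ⟨fun _ => x, fun _ => y, ⁅x, y⁆, ⟨fun _ => hz' x, fun _ => hz' y, fun _ _ => rfl,
    fun _ _ => rfl, fun i j hij => absurd (Subsingleton.elim i j) hij, fun _ => ?_⟩, htf _ hne⟩
  rw [commutatorElement_def]
  group

end Pool.Agent.PR
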